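import Pool.Agent.H82.RP.TA
import Pool.Agent.H82.RP.TB
import Pool.Agent.H82.RP.TC

/-!
# S2: the primes in the window
-/

set_option autoImplicit false

open Finset Real ArithmeticFunction
open scoped Nat ArithmeticFunction.Moebius

namespace Pool.Agent.H4.RP

open Pool.Agent.H82.RP
open Pool.Agent.H30.BV (NX)
open Pool.Agent.H31.MP (RS Rgh Pz Me Om Lam1 QF1)

theorem sum_HS {m : ℕ} (T : Finset (Fin m)) (K : ℕ) (f : Finset (Fin m) → ℝ) :
    ∑ H ∈ HS T K, f H = ∑ s ∈ range (K + 1), ∑ H ∈ T.powersetCard s, f H := by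
  have h1 := Finset.sum_fiberwise_of_maps_to (s := HS T K) (t := range (K + 1))
    (g := fun H : Finset (Fin m) => H.card) (fun H hH => by
      rw [HS, mem_filter] at hH
      rw [mem_range]
      exact Nat.lt_succ_of_le hH.2) f
  rw [← h1]
  refine Finset.sum_congr rfl fun s hs => ?_
  refine Finset.sum_congr ?_ fun _ _ => rfl
  ext H
  rw [mem_range] at hs
  simp only [HS, mem_filter, mem_powerset, mem_powersetCard]
  constructor
  · rintro ⟨⟨h2, -⟩, h4⟩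
    exact ⟨h2, h4⟩
  · rintro ⟨h2, h4⟩
    exact ⟨⟨h2, by omega⟩, h4⟩

theorem choose_le_pow' (n k : ℕ) : n.choose k ≤ n ^ k := by
  have h1 : (n.choose k : ℝ) ≤ (n : ℝ) ^ k / (k ! : ℝ) := Nat.choose_le_pow_div k n
  have h2 : (n : ℝ) ^ k / (k ! : ℝ) ≤ (n : ℝ) ^ k :=
    div_le_self (by positivity) (by exact_mod_cast Nat.one_le_iff_ne_zero.2 (Nat.factorial_ne_zero k))
  exact_mod_cast h1.trans h2

theorem card_HS {m : ℕ} (T : Finset (Fin m)) (K : ℕ) : ((HS T K).card : ℝ) ≤ ((m : ℝ) + 1) ^ K := by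
  have h1 := sum_HS T K fun _ => 1
  rw [sum_const, nsmul_eq_mul, mul_one] at h1
  rw [h1, add_pow]
  refine Finset.sum_le_sum fun s hs => ?_
  rw [sum_const, card_powersetCard, nsmul_eq_mul, mul_one, one_pow, mul_one]
  rw [mem_range] at hs
  have h2 : (T.card.choose s : ℝ) ≤ (m : ℝ) ^ s := by
    have h3 : T.card ≤ m := by
      have := card_le_univ T
      simpa using this
    exact_mod_cast (Nat.choose_le_choose s h3).trans (choose_le_pow' m s)
  have h4 : (1 : ℝ) ≤ (K.choose s : ℝ) := by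
    exact_mod_cast Nat.choose_pos (by omega : s ≤ K)
  calc (T.card.choose s : ℝ) ≤ (m : ℝ) ^ s := h2
    _ ≤ (m : ℝ) ^ s * (K.choose s : ℝ) := le_mul_of_one_le_right (by positivity) h4

theorem VS_empty (y₀ : ℕ) (z : ℝ) : VS y₀ z ∅ = 1 := by
  unfold VS nS
  refine Finset.prod_eq_one fun p _ => ?_
  simp

theorem VS_pos (h : T_VRI) {K y₀ : ℕ} (z : ℝ) {S : Finset ℕ} (hS : S.card ≤ K)
    (hy : 2 * K + 4 ≤ y₀) : 0 < VS y₀ z S := by
  refine (h K y₀ z S (S.sup id + 1) hS hy ?_).1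
  intro h1
  have h2 := Finset.le_sup (f := id) h1
  simp only [id] at h2
  omega

theorem wg_mono {I : Type} [Fintype I] [DecidableEq I] {U V : Finset I} {z Y C : ℝ}
    {l : (I → ℕ) → ℝ} (h : WG U z Y C l) (hUV : U ⊆ V) : WG V z Y C l :=
  ⟨fun d hd => ⟨(h.supp d hd).1, (h.supp d hd).2.1, fun i hi =>
    (h.supp d hd).2.2 i fun h1 => hi (hUV h1)⟩, h.bd⟩

/-- choice of `δ₁` -/
theorem exd (c₁ c₂ B : ℝ) (h1 : 0 ≤ c₁) (h2 : 0 ≤ c₂) (hB : 0 ≤ B) :
    ∃ δ₁ : ℝ, 0 < δ₁ ∧ ∀ δ : ℝ, 0 < δ → δ ≤ δ₁ → δ * (c₁ + c₂ * Real.log (1 + B / δ)) ≤ 1 / 4 := by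
  refine ⟨min (1 / (8 * (c₁ + 1))) (1 / ((B + 1) * (16 * (c₂ + 1)) ^ 2)), by positivity, ?_⟩
  intro δ hδ hle
  have e1 : δ ≤ 1 / (8 * (c₁ + 1)) := hle.trans (min_le_left _ _)
  have e2 : δ ≤ 1 / ((B + 1) * (16 * (c₂ + 1)) ^ 2) := hle.trans (min_le_right _ _)
  have e3 : δ * c₁ ≤ 1 / 8 := by
    rw [le_div_iff₀ (by positivity)] at e1
    nlinarith
  have e4 : B * δ ≤ (1 / (16 * (c₂ + 1))) ^ 2 := by
    rw [le_div_iff₀ (by positivity)] at e2
    rw [div_pow, one_pow, le_div_iff₀ (by positivity)]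
    nlinarith [sq_nonneg (16 * (c₂ + 1))]
  have e5 : √(B * δ) ≤ 1 / (16 * (c₂ + 1)) := by
    rw [Real.sqrt_le_left (by positivity)]
    exact e4
  have e6 : Real.log (1 + B / δ) ≤ 2 * √(B / δ) := by
    have h3 : 0 ≤ B / δ := by positivity
    have h4 : 1 + B / δ ≤ (1 + √(B / δ)) ^ 2 := by
      have := Real.sq_sqrt h3
      nlinarith [Real.sqrt_nonneg (B / δ)]
    calc Real.log (1 + B / δ) ≤ Real.log ((1 + √(B / δ)) ^ 2) :=
          Real.log_le_log (by positivity) h4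
      _ = 2 * Real.log (1 + √(B / δ)) := by
          rw [Real.log_pow]; norm_num
      _ ≤ 2 * √(B / δ) := by
          have := Real.log_le_sub_one_of_pos (show 0 < 1 + √(B / δ) by positivity)
          linarith
  have e7 : δ * √(B / δ) = √(B * δ) := by
    have h3 : B * δ = δ ^ 2 * (B / δ) := by field_simp
    rw [h3, Real.sqrt_mul (by positivity), Real.sqrt_sq hδ.le]
  have e8 : δ * (c₂ * Real.log (1 + B / δ)) ≤ 1 / 8 := by
    calc δ * (c₂ * Real.log (1 + B / δ)) ≤ δ * (c₂ * (2 * √(B / δ))) := by gcongr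
      _ = 2 * c₂ * √(B * δ) := by rw [← e7]; ring
      _ ≤ 2 * c₂ * (1 / (16 * (c₂ + 1))) := by gcongr
      _ ≤ 1 / 8 := by
          rw [mul_one_div, div_le_iff₀ (by positivity)]
          linarith
  linarith

/-! ## Primes -/

theorem mem_Pz {y₀ p : ℕ} {z : ℝ} (h : p ∈ Pz y₀ z) : p.Prime ∧ y₀ < p ∧ (p : ℝ) ≤ z := by
  rw [Pz, mem_filter, mem_Icc] at h
  exact ⟨h.2.1, h.2.2, (Nat.le_floor_iff' (by have := h.2.1.pos; omega)).1 h.1.2⟩

theorem prime_facts {Z z : ℝ} {y₀ a m n : ℕ} (j : Fin m) (hn : n ∈ Om Z y₀)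
    (hsq : √Z < (n : ℝ)) (hp : (n + pw a j).Prime) (hy : (y₀ : ℝ) ≤ √Z) (hz : z ≤ √Z) :
    j ∈ Ad y₀ a m ∧ z < ((n + pw a j : ℕ) : ℝ) ∧ RH y₀ z {pw a j} n := by
  have hq : √Z < ((n + pw a j : ℕ) : ℝ) := by
    push_cast
    have : (0 : ℝ) ≤ (pw a j : ℝ) := by positivity
    linarith
  refine ⟨?_, hz.trans_lt hq, ?_⟩
  · rw [Ad, mem_filter]
    refine ⟨mem_univ _, ?_⟩
    refine Nat.coprime_of_dvd fun p hpp h1 h2 => ?_
    have h3 : p ≤ y₀ := by
      unfold primorial at h2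
      obtain ⟨r, hr, hpr⟩ := (Nat.Prime.prime hpp).exists_mem_finset_dvd h2
      rw [mem_filter, mem_range] at hr
      have := (Nat.prime_dvd_prime_iff_eq hpp hr.2).1 hpr
      omega
    rw [Om, mem_filter] at hn
    have h4 : n ≡ 1 [MOD p] := hn.2.of_dvd h2
    have h5 : n + pw a j ≡ 1 + pw a j [MOD p] := h4.add_right _
    have h6 : p ∣ n + pw a j := (h5.dvd_iff dvd_rfl).2 h1
    have h7 : p = n + pw a j := (Nat.prime_dvd_prime_iff_eq hpp hp).1 h6
    have h8 : ((n + pw a j : ℕ) : ℝ) ≤ y₀ := by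
      rw [← h7]
      exact_mod_cast h3
    linarith
  · intro p hpz s hs h1
    rw [mem_singleton] at hs
    subst hs
    obtain ⟨h2, h3, h4⟩ := mem_Pz hpz
    have h5 : p = n + pw a j := (Nat.prime_dvd_prime_iff_eq h2 hp).1 h1
    rw [h5] at h4
    linarith

theorem mem_RS {z D : ℝ} {u : ℕ} : u ∈ RS z D ↔ (1 ≤ u ∧ u ≤ ⌊D⌋₊) ∧ Rgh z u := by
  classical
  unfold RS
  rw [mem_filter, mem_Icc]

theorem Lam1_prime {z D : ℝ} {ρ : ℕ → ℝ} {q : ℕ} (hD : 1 ≤ D) (hρ : ρ 1 = 1) (hq : q.Prime)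
    (hDq : D < (q : ℝ)) : Lam1 z D ρ q = 1 := by
  unfold Lam1
  rw [Finset.sum_eq_single 1]
  · rw [if_pos (one_dvd q), hρ]
  · intro u hu h1
    rw [if_neg]
    intro h2
    rcases (Nat.dvd_prime hq).1 h2 with h3 | h3
    · exact h1 h3
    · rw [mem_RS] at hu
      have h4 : (u : ℝ) ≤ D := (Nat.le_floor_iff' (by omega)).1 hu.1.2
      rw [h3] at h4
      linarith
  · intro h1
    exfalso
    refine h1 ?_
    rw [mem_RS]
    refine ⟨⟨le_rfl, (Nat.le_floor_iff' one_ne_zero).2 (by simpa using hD)⟩, squarefree_one, ?_⟩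
    intro p hp h2
    exact absurd (Nat.dvd_one.1 h2) hp.one_lt.ne'

/-- the sum of the weights with a prime at the position `j` -/
noncomputable def Sj {m : ℕ} (y₀ K : ℕ) (z Y D : ℝ) (g ρ : ℕ → ℝ) (a : ℕ) (j : Fin m) (n : ℕ) :
    ℝ := by
  classical
  exact ∑ H ∈ HS ((Ad y₀ a m).erase j) K, if RH y₀ z (H.image (pw a)) n then
    LG z (D * Y) (rj j ρ (LE z Y g K j H)) (pw a) n else 0

open Classical in
theorem lhs (hTPE : T_TPE) {m y₀ K a : ℕ} {Z z Y D : ℝ} {g ρ : ℕ → ℝ} (hK : 1 ≤ K) (hY : 1 ≤ Y)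
    (hD : 1 ≤ D) (hg : ∀ a, 0 ≤ g a ∧ g a ≤ 1) (hρ : ρ 1 = 1) (hy : (y₀ : ℝ) ≤ √Z)
    (hz : z ≤ √Z) (hYZ : Y ≤ √Z) (hDZ : D ≤ √Z)
    (hLG : ∀ (j : Fin m), ∀ H ∈ HS ((Ad y₀ a m).erase j) K, ∀ n,
      LG z (D * Y) (rj j ρ (LE z Y g K j H)) (pw a) n =
        Lam1 z D ρ (n + pw a j) * LG z Y (LE z Y g K j H) (pw a) n) :
    ∑ n ∈ (Om Z y₀).filter (fun n : ℕ => √Z < (n : ℝ)), tw m y₀ K z Y g a n ^ 2 *
        (((range m).filter (fun i => (n + (a + i)).Prime)).card : ℝ) ≤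
      ∑ j ∈ Ad y₀ a m, ∑ n ∈ OS Z y₀ z (({j} : Finset (Fin m)).image (pw a)),
        Sj y₀ K z Y D g ρ a j n ^ 2 := by
  have h1 : ∀ n ∈ (Om Z y₀).filter (fun n : ℕ => √Z < (n : ℝ)), tw m y₀ K z Y g a n ^ 2 *
      (((range m).filter (fun i => (n + (a + i)).Prime)).card : ℝ) ≤
      ∑ j ∈ Ad y₀ a m, if RH y₀ z {pw a j} n then Sj y₀ K z Y D g ρ a j n ^ 2 else 0 := by
    intro n hn
    rw [mem_filter] at hn
    obtain ⟨hn, hsq⟩ := hn
    have h2 : (((range m).filter (fun i => (n + (a + i)).Prime)).card : ℝ) =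
        ∑ j : Fin m, if (n + pw a j).Prime then (1 : ℝ) else 0 := by
      rw [card_filter]
      push_cast
      rw [Finset.sum_range]
      refine Finset.sum_congr rfl fun j _ => ?_
      rfl
    rw [h2, Finset.mul_sum]
    have h3 : ∑ j : Fin m, tw m y₀ K z Y g a n ^ 2 * (if (n + pw a j).Prime then (1 : ℝ) else 0) =
        ∑ j ∈ Ad y₀ a m, tw m y₀ K z Y g a n ^ 2 *
          (if (n + pw a j).Prime then (1 : ℝ) else 0) := by
      symm
      refine Finset.sum_subset (subset_univ _) fun j _ hj => ?_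
      rw [if_neg, mul_zero]
      intro h4
      exact hj (prime_facts j hn hsq h4 hy hz).1
    rw [h3]
    refine Finset.sum_le_sum fun j hj => ?_
    by_cases hp : (n + pw a j).Prime
    · obtain ⟨h4, h5, h6⟩ := prime_facts j hn hsq hp hy hz
      have h7 : Y < ((n + pw a j : ℕ) : ℝ) := (prime_facts j hn hsq hp hy hYZ).2.1
      have h8 : D < ((n + pw a j : ℕ) : ℝ) := (prime_facts j hn hsq hp hy hDZ).2.1
      rw [if_pos hp, if_pos h6, mul_one, hTPE m y₀ K a n z Y g j hK hY hg hj hp h5 h7]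
      have h9 : Sj y₀ K z Y D g ρ a j n = ∑ H ∈ HS ((Ad y₀ a m).erase j) K,
          if RH y₀ z (ps a H) n then LG z Y (LE z Y g K j H) (pw a) n else 0 := by
        unfold Sj
        refine Finset.sum_congr rfl fun H hH => ?_
        rw [hLG j H hH n, Lam1_prime hD hρ hp h8, one_mul]
        rfl
      rw [h9]
    · rw [if_neg hp, mul_zero]
      split_ifs
      · positivity
      · exact le_rfl
  refine (Finset.sum_le_sum h1).trans ?_
  rw [Finset.sum_comm]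
  refine Finset.sum_le_sum fun j _ => ?_
  have h5 : ∑ n ∈ OS Z y₀ z (({j} : Finset (Fin m)).image (pw a)),
      Sj y₀ K z Y D g ρ a j n ^ 2 =
      ∑ n ∈ Om Z y₀, if RH y₀ z {pw a j} n then Sj y₀ K z Y D g ρ a j n ^ 2 else 0 := by
    rw [OS, image_singleton, Finset.sum_filter]
  rw [h5]
  refine Finset.sum_le_sum_of_subset_of_nonneg (filter_subset _ _) fun n _ _ => ?_
  split_ifs
  · positivity
  · exact le_rfl

/-! ## One position -/

theorem image_un {m : ℕ} (a : ℕ) (j : Fin m) (H : Finset (Fin m)) :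
    (({j} : Finset (Fin m)) ∪ H).image (pw a) = {pw a j} ∪ ps a H := by
  rw [image_union, image_singleton, ps]

theorem card_ps {m : ℕ} (a : ℕ) (H : Finset (Fin m)) : (ps a H).card ≤ H.card := card_image_le

open Classical in
theorem part_j {m y₀ K a : ℕ} {Z z Y : ℝ} {g : ℕ → ℝ} (j : Fin m) {q1 ηF CK Lm R A : ℝ}
    (QL : Finset (Fin m) → ℝ) (hη : 0 ≤ ηF) (hq1 : 0 ≤ q1)
    (hE : |A - ∑ H ∈ HS ((Ad y₀ a m).erase j) K,
        EE Z y₀ z ((({j} : Finset (Fin m)) ∪ H).image (pw a)) * QL H| ≤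
      ηF * ∑ H ∈ HS ((Ad y₀ a m).erase j) K,
        EE Z y₀ z ((({j} : Finset (Fin m)) ∪ H).image (pw a)) * QL H +
      ηF * ∑ H ∈ HS ((Ad y₀ a m).erase j) K,
        ∑ H' ∈ (HS ((Ad y₀ a m).erase j) K).filter (fun H' => H' ≠ H),
        EE Z y₀ z ((({j} : Finset (Fin m)) ∪ (H ∪ H')).image (pw a)) * (QL H + QL H') + R)
    (hQ : ∀ H ∈ HS ((Ad y₀ a m).erase j) K, 0 ≤ QL H ∧ QL H ≤ q1 * te z Y g K H.card ∧ QL H ≤ q1)
    (hte : ∀ s, 0 ≤ te z Y g K s)
    (hV : ∀ s ≤ K, ∑ H ∈ ((Ad y₀ a m).erase j).powersetCard s, VS y₀ z ({pw a j} ∪ ps a H) ≤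
      Lm ^ s / (s ! : ℝ) * VS y₀ z {pw a j})
    (hC : ∑ H ∈ HS ((Ad y₀ a m).erase j) K, ∑ H' ∈ HS ((Ad y₀ a m).erase j) K,
      VS y₀ z ({pw a j} ∪ (ps a H ∪ ps a H')) ≤ CK * VS y₀ z {pw a j})
    (hpos : ∀ S : Finset ℕ, S.card ≤ 2 * K + 1 → 0 < VS y₀ z S) :
    A ≤ VS y₀ z {pw a j} * (NX Z / primorial y₀ *
      (q1 * ((1 + ηF) * TE z Y g K Lm + 2 * ηF * CK))) + R := by
  have hN : (0 : ℝ) ≤ NX Z / primorial y₀ := by positivity
  set T := (Ad y₀ a m).erase j with hT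
  have hcard : ∀ H ∈ HS T K, H.card ≤ K := fun H hH => by
    rw [HS, mem_filter] at hH
    exact hH.2
  have hc1 : ∀ H ∈ HS T K, ({pw a j} ∪ ps a H : Finset ℕ).card ≤ 2 * K + 1 := fun H hH => by
    have h1 := card_union_le {pw a j} (ps a H)
    have h2 := card_ps a H
    have h3 := hcard H hH
    rw [card_singleton] at h1
    omega
  have hc2 : ∀ H ∈ HS T K, ∀ H' ∈ HS T K,
      ({pw a j} ∪ (ps a H ∪ ps a H') : Finset ℕ).card ≤ 2 * K + 1 := fun H hH H' hH' => by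
    have h1 := card_union_le {pw a j} (ps a H ∪ ps a H')
    have h1' := card_union_le (ps a H) (ps a H')
    have h2 := card_ps a H
    have h3 := hcard H hH
    have h2' := card_ps a H'
    have h3' := hcard H' hH'
    rw [card_singleton] at h1
    omega
  -- the main term
  have hM : ∑ H ∈ HS T K, EE Z y₀ z ((({j} : Finset (Fin m)) ∪ H).image (pw a)) * QL H ≤
      NX Z / primorial y₀ * (q1 * (VS y₀ z {pw a j} * TE z Y g K Lm)) := by
    have h1 : ∀ H ∈ HS T K, EE Z y₀ z ((({j} : Finset (Fin m)) ∪ H).image (pw a)) * QL H ≤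
        NX Z / primorial y₀ * (q1 * (te z Y g K H.card * VS y₀ z ({pw a j} ∪ ps a H))) := by
      intro H hH
      rw [image_un, EE]
      have h2 := (hpos _ (hc1 H hH)).le
      have h3 := (hQ H hH).2.1
      calc NX Z / primorial y₀ * VS y₀ z ({pw a j} ∪ ps a H) * QL H ≤
          NX Z / primorial y₀ * VS y₀ z ({pw a j} ∪ ps a H) * (q1 * te z Y g K H.card) := by
            gcongr
        _ = _ := by ring
    refine (Finset.sum_le_sum h1).trans ?_
    rw [← Finset.mul_sum, ← Finset.mul_sum]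
    refine mul_le_mul_of_nonneg_left (mul_le_mul_of_nonneg_left ?_ hq1) hN
    rw [sum_HS, TE, Finset.mul_sum]
    refine Finset.sum_le_sum fun s hs => ?_
    rw [mem_range] at hs
    have h2 : ∑ H ∈ T.powersetCard s, te z Y g K H.card * VS y₀ z ({pw a j} ∪ ps a H) =
        te z Y g K s * ∑ H ∈ T.powersetCard s, VS y₀ z ({pw a j} ∪ ps a H) := by
      rw [Finset.mul_sum]
      refine Finset.sum_congr rfl fun H hH => ?_
      rw [(mem_powersetCard.1 hH).2]
    rw [h2]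
    calc te z Y g K s * ∑ H ∈ T.powersetCard s, VS y₀ z ({pw a j} ∪ ps a H) ≤
        te z Y g K s * (Lm ^ s / (s ! : ℝ) * VS y₀ z {pw a j}) :=
          mul_le_mul_of_nonneg_left (hV s (by omega)) (hte s)
      _ = _ := by ring
  -- the cross terms
  have hX : ∑ H ∈ HS T K, ∑ H' ∈ (HS T K).filter (fun H' => H' ≠ H),
      EE Z y₀ z ((({j} : Finset (Fin m)) ∪ (H ∪ H')).image (pw a)) * (QL H + QL H') ≤
      NX Z / primorial y₀ * (2 * q1 * (CK * VS y₀ z {pw a j})) := by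
    have h1 : ∀ H ∈ HS T K, ∑ H' ∈ (HS T K).filter (fun H' => H' ≠ H),
        EE Z y₀ z ((({j} : Finset (Fin m)) ∪ (H ∪ H')).image (pw a)) * (QL H + QL H') ≤
        ∑ H' ∈ HS T K, NX Z / primorial y₀ * (2 * q1 *
          VS y₀ z ({pw a j} ∪ (ps a H ∪ ps a H'))) := by
      intro H hH
      have h2 : ∀ H' ∈ HS T K,
          EE Z y₀ z ((({j} : Finset (Fin m)) ∪ (H ∪ H')).image (pw a)) * (QL H + QL H') ≤
          NX Z / primorial y₀ * (2 * q1 * VS y₀ z ({pw a j} ∪ (ps a H ∪ ps a H'))) := by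
        intro H' hH'
        have h3 : ps a (H ∪ H') = ps a H ∪ ps a H' := image_union _ _
        rw [image_un, EE, h3]
        have h4 := (hpos _ (hc2 H hH H' hH')).le
        have h5 := (hQ H hH).2.2
        have h6 := (hQ H' hH').2.2
        calc NX Z / primorial y₀ * VS y₀ z ({pw a j} ∪ (ps a H ∪ ps a H')) * (QL H + QL H') ≤
            NX Z / primorial y₀ * VS y₀ z ({pw a j} ∪ (ps a H ∪ ps a H')) * (q1 + q1) := by
              gcongr
          _ = _ := by ring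
      refine (Finset.sum_le_sum fun H' hH' => h2 H' (mem_filter.1 hH').1).trans ?_
      refine Finset.sum_le_sum_of_subset_of_nonneg (filter_subset _ _) fun H' hH' _ => ?_
      have h4 := (hpos _ (hc2 H hH H' hH')).le
      positivity
    refine (Finset.sum_le_sum h1).trans ?_
    simp_rw [← Finset.mul_sum]
    exact mul_le_mul_of_nonneg_left (mul_le_mul_of_nonneg_left hC (by positivity)) hN
  have hA := (abs_le.1 hE).2
  have h1 := mul_le_mul_of_nonneg_left hM (show (0 : ℝ) ≤ 1 + ηF by positivity)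
  have h2 := mul_le_mul_of_nonneg_left hX hη
  have h3 : VS y₀ z {pw a j} * (NX Z / primorial y₀ *
      (q1 * ((1 + ηF) * TE z Y g K Lm + 2 * ηF * CK))) =
      (1 + ηF) * (NX Z / primorial y₀ * (q1 * (VS y₀ z {pw a j} * TE z Y g K Lm))) +
      ηF * (NX Z / primorial y₀ * (2 * q1 * (CK * VS y₀ z {pw a j}))) := by ring
  rw [h3]
  linarith

/-! ## The sum over the positions -/

theorem pw_inj {m : ℕ} (a : ℕ) : Function.Injective (pw a : Fin m → ℕ) := by
  intro i i' h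
  unfold pw at h
  exact Fin.ext (by omega)

theorem sum_one {m y₀ a : ℕ} {z Lm : ℝ}
    (hV : ∑ H ∈ (Ad y₀ a m).powersetCard 1, VS y₀ z (∅ ∪ ps a H) ≤
      Lm ^ 1 / (1 ! : ℝ) * VS y₀ z ∅) : ∑ j ∈ Ad y₀ a m, VS y₀ z {pw a j} ≤ Lm := by
  rw [VS_empty, powersetCard_one, sum_map] at hV
  simp only [pow_one, Nat.factorial_one, Nat.cast_one, div_one, mul_one, Finset.empty_union] at hV
  refine le_trans (le_of_eq ?_) hV
  refine Finset.sum_congr rfl fun j _ => ?_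
  have : ps a ((⟨singleton, singleton_injective⟩ : Fin m ↪ Finset (Fin m)) j) = {pw a j} :=
    image_singleton _ _
  rw [this]

theorem pf_S2 (h1 : T_EXP) (h2 : T_QEE) (h3 : T_QQS) (h4 : T_LBH) (h5 : T_VSU) (h7 : T_VCR)
    (hMR : Pool.Agent.H31.MP.T_MR) (h8 : T_VRI) (h9 : T_TPE) (h10 : T_RJ)
    (hRH : Pool.Agent.H31.MP.T_RH) : T_S2 := by
  intro K η lam t hK hη hη1 ht htl
  have hlam : 0 < lam := ht.trans_le htl
  obtain ⟨cM, CM, hcM, hCM, hMe⟩ := hMR
  obtain ⟨yU, hU⟩ := h5 K η hη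
  obtain ⟨CK, yC, hCK, hC⟩ := h7 K
  obtain ⟨C₁, hC₁, hEx⟩ := h1 K
  refine ⟨yU + yC + 6 * K + 10, fun y₀ hy => ?_⟩
  obtain ⟨B, hB⟩ : ∃ B, B = lam * CM := ⟨_, rfl⟩
  have hB0 : 0 < B := by rw [hB]; positivity
  obtain ⟨c₀, hc₀⟩ : ∃ c₀, c₀ = (1 + 64 * lam * CK) / η := ⟨_, rfl⟩
  have hc₀1 : 1 ≤ c₀ := by
    rw [hc₀, le_div_iff₀ hη]
    have : 0 < lam * CK := by positivity
    linarith
  obtain ⟨δ₁, hδ₁, hδ⟩ := exd (4 * C₁ * (1 + Real.log c₀) + 6) (8 * C₁ * K) B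
    (by have := Real.log_nonneg hc₀1; positivity) (by positivity) hB0.le
  refine ⟨δ₁, hδ₁, fun δ hδ0 hδle H₀ => ?_⟩
  have hd := hδ δ hδ0 hδle
  obtain ⟨W, hW⟩ : ∃ W, W = (1 + B / δ) ^ (2 * K) := ⟨_, rfl⟩
  have hBδ : 0 ≤ B / δ := by positivity
  have hW1 : 1 ≤ W := by
    rw [hW]
    exact one_le_pow₀ (by linarith)
  obtain ⟨ηF, hηF⟩ : ∃ ηF, ηF = 1 / (c₀ * W) := ⟨_, rfl⟩
  have hηF0 : 0 < ηF := by rw [hηF]; positivity
  have hηF2 : ηF * W = 1 / c₀ := by
    rw [hηF]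
    field_simp
  have hc₀η : 1 / c₀ = η / (1 + 64 * lam * CK) := by
    rw [hc₀, one_div_div]
  have hηF3 : ηF * (CK * W) ≤ η / (64 * lam) := by
    have e1 : ηF * (CK * W) = CK * (ηF * W) := by ring
    rw [e1, hηF2, hc₀η, ← mul_div_assoc, div_le_div_iff₀ (by positivity) (by positivity)]
    nlinarith [mul_pos hη hlam]
  have hηF1 : ηF ≤ η := by
    have e1 : ηF ≤ ηF * W := le_mul_of_one_le_right hηF0.le hW1
    refine e1.trans ?_
    rw [hηF2, hc₀η]
    exact div_le_self hη.le (by have : 0 < lam * CK := by positivity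
                                linarith)
  obtain ⟨b, hb, hEx2⟩ := hEx ηF hηF0 (hηF1.trans hη1)
  have hlog : Real.log (1 / ηF) = Real.log c₀ + 2 * K * Real.log (1 + B / δ) := by
    rw [hηF, one_div_one_div, Real.log_mul (by positivity) (by positivity), hW, Real.log_pow]
    push_cast
    ring
  have hdb : δ * (4 * b + 6) ≤ 1 / 4 := by
    refine le_trans ?_ hd
    refine mul_le_mul_of_nonneg_left ?_ hδ0.le
    rw [hlog] at hb
    nlinarith
  obtain ⟨C, hC0, hLB⟩ := h4 K δ hδ0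
  obtain ⟨XE, hE⟩ := hEx2 y₀ 2 δ C (|H₀| + lam + 1) (by omega) hδ0 hdb hC0.le
  obtain ⟨XU, hU2⟩ := hU y₀ (by omega) t δ H₀ ht hδ0
  obtain ⟨XC, hC2⟩ := hC y₀ (by omega) t δ H₀ ht hδ0
  refine ⟨max (max XE XU) (max XC (max (Real.exp 1) (max ((y₀ : ℝ) ^ 2)
    (max ((2 : ℝ) ^ (1 / δ)) (Real.exp (2 * lam * primorial y₀ / (3 * η))))))), ?_⟩
  intro Z hZ m a g hg hm1 hm2 ha
  simp only [max_le_iff] at hZ
  obtain ⟨⟨hZE, hZU⟩, hZC, hZe, hZy, hZ2, hZP⟩ := hZ
  have hZ3 : 2 ≤ Z := by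
    have := Real.add_one_le_exp 1
    linarith
  have hZ0 : 0 < Z := by linarith
  have hlZ : 1 ≤ Real.log Z := (Real.le_log_iff_exp_le hZ0).2 hZe
  have hP0 : (0 : ℝ) < primorial y₀ := by exact_mod_cast primorial_pos y₀
  have hlP : 2 * lam * primorial y₀ / (3 * η) ≤ Real.log Z := (Real.le_log_iff_exp_le hZ0).2 hZP
  obtain ⟨z, hz⟩ : ∃ z, z = Z ^ δ := ⟨_, rfl⟩
  obtain ⟨Y, hY⟩ : ∃ Y, Y = Z ^ (1 / 8 : ℝ) := ⟨_, rfl⟩
  have hz2 : 2 ≤ z := by
    rw [hz]
    calc (2 : ℝ) = ((2 : ℝ) ^ (1 / δ)) ^ δ := by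
          rw [← Real.rpow_mul (by norm_num), one_div_mul_cancel hδ0.ne', Real.rpow_one]
      _ ≤ Z ^ δ := Real.rpow_le_rpow (by positivity) hZ2 hδ0.le
  have hlz : Real.log z = δ * Real.log Z := by rw [hz, Real.log_rpow hZ0]
  have hlY : Real.log Y = 1 / 8 * Real.log Z := by rw [hY, Real.log_rpow hZ0]
  have hY1 : 1 < Y := by
    rw [hY]
    exact Real.one_lt_rpow (by linarith) (by norm_num)
  have hδ2 : δ ≤ 1 / 2 := by
    have e1 : δ * 6 ≤ δ * (4 * b + 6) := by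
      refine mul_le_mul_of_nonneg_left ?_ hδ0.le
      have : (0 : ℝ) ≤ b := by positivity
      linarith
    linarith
  have hYs : Y ≤ √Z := by
    rw [hY, Real.sqrt_eq_rpow]
    exact Real.rpow_le_rpow_of_exponent_le (by linarith) (by norm_num)
  have hzs : z ≤ √Z := by
    rw [hz, Real.sqrt_eq_rpow]
    exact Real.rpow_le_rpow_of_exponent_le (by linarith) hδ2
  have hys : (y₀ : ℝ) ≤ √Z := Real.le_sqrt_of_sq_le hZy
  have hYY : Y * Y = Z ^ (1 / 4 : ℝ) := by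
    rw [hY, ← Real.rpow_add hZ0]
    norm_num
  have hYZ : Y ≤ Z := by
    rw [hY]
    calc Z ^ (1 / 8 : ℝ) ≤ Z ^ (1 : ℝ) :=
          Real.rpow_le_rpow_of_exponent_le (by linarith) (by norm_num)
      _ = Z := Real.rpow_one Z
  obtain ⟨hMe1, hMe2⟩ := hMe z hz2
  have hlz0 : 0 < Real.log z := Real.log_pos (by linarith)
  have hMe0 : 0 < Me z := lt_of_lt_of_le (by positivity) hMe1
  obtain ⟨ρ, hρ1, hρb, hρs, hq0, hqM⟩ := hRH z Y (by linarith) hY1
  obtain ⟨q1, hq1⟩ : ∃ q1, q1 = QF1 z Y ρ := ⟨_, rfl⟩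
  rw [← hq1] at hq0 hqM
  have hlY0 : 0 < Real.log Y := Real.log_pos hY1
  have hmMq : (m : ℝ) * Me z * q1 ≤ 8 * lam := by
    have e1 : (m : ℝ) ≤ 8 * lam * Real.log Y := by rw [hlY]; linarith
    calc (m : ℝ) * Me z * q1 ≤ 8 * lam * Real.log Y * Me z * q1 := by gcongr
      _ = 8 * lam * (Me z * q1 * Real.log Y) := by ring
      _ ≤ 8 * lam * 1 := by gcongr
      _ = 8 * lam := mul_one _
  have hmM : (m : ℝ) * Me z ≤ B / δ := by
    have hlZ0 : 0 < Real.log Z := by linarith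
    calc (m : ℝ) * Me z ≤ (lam * Real.log Z) * (CM / Real.log z) := by gcongr
      _ = B / δ := by
          rw [hlz, hB]
          field_simp
  have hmM0 : 0 ≤ (m : ℝ) * Me z := by positivity
  have hg' : ∀ a, 0 ≤ g a ∧ g a ≤ 1 := fun a => ⟨hg.nn a, hg.le a⟩
  rw [← hz, ← hY] at hg ⊢
  have hte : ∀ s, 0 ≤ te z Y g K s := by
    intro s
    obtain ⟨-, -, -, e4, -, e6⟩ := h3 z Y g s hY1 hg
    unfold te tq
    split_ifs
    · positivity
    · positivity
  obtain ⟨Lm, hLm⟩ : ∃ Lm, Lm = (1 + η) * (m * Me z) := ⟨_, rfl⟩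
  have hLm0 : 0 ≤ Lm := by rw [hLm]; positivity
  have hTE0 : 0 ≤ TE z Y g K Lm := by
    unfold TE
    refine Finset.sum_nonneg fun s _ => ?_
    have := hte s
    positivity
  have hpos : ∀ S : Finset ℕ, S.card ≤ 2 * K + 1 → 0 < VS y₀ z S := fun S hS =>
    VS_pos h8 z hS (by omega)
  have hm0 : (0 : ℝ) ≤ m := by positivity
  have hlZ0 : 0 < Real.log Z := by linarith
  have haux : ∀ i : Fin m, ((pw a i : ℕ) : ℝ) ≤ H₀ * Real.log Z := by
    intro i
    refine le_trans ?_ ha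
    have : pw a i ≤ a + m := by
      unfold pw
      omega
    exact_mod_cast this
  have hHS : ∀ (j : Fin m), ∀ H ∈ HS ((Ad y₀ a m).erase j) K, H.card ≤ K ∧ j ∉ H := by
    intro j H hH
    rw [HS, mem_filter, mem_powerset] at hH
    exact ⟨hH.2, fun hj => (mem_erase.1 (hH.1 hj)).1 rfl⟩
  have hWG : ∀ (j : Fin m), ∀ H ∈ HS ((Ad y₀ a m).erase j) K,
      WG H z Y C (LE z Y g K j H) := by
    intro j H hH
    obtain ⟨e1, e2⟩ := hHS j H hH
    have e3 := (hLB Z Y g m H hZ3 hY1.le hYZ hg' e1).2 j e2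
    rw [← hz] at e3
    exact e3
  have hRJ : ∀ (j : Fin m), ∀ H ∈ HS ((Ad y₀ a m).erase j) K,
      ∀ H' ∈ HS ((Ad y₀ a m).erase j) K,
      QB z (Y * Y) (rj j ρ (LE z Y g K j H)) (rj j ρ (LE z Y g K j H')) =
        q1 * QB z Y (LE z Y g K j H) (LE z Y g K j H') := by
    intro j H hH H' hH'
    rw [hq1]
    exact (h10 (Fin m) j (H ∪ H') z Y Y C ρ _ _ hY1.le hY1.le hρb hρs hC0.le
      (fun h => (mem_union.1 h).elim (hHS j H hH).2 (hHS j H' hH').2)
      (wg_mono (hWG j H hH) subset_union_left) (wg_mono (hWG j H' hH') subset_union_right)).2.1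
  have hRJ1 : ∀ (j : Fin m), ∀ H ∈ HS ((Ad y₀ a m).erase j) K,
      WG (({j} : Finset (Fin m)) ∪ H) z (Y * Y) C (rj j ρ (LE z Y g K j H)) ∧
      ∀ n, LG z (Y * Y) (rj j ρ (LE z Y g K j H)) (pw a) n =
        Lam1 z Y ρ (n + pw a j) * LG z Y (LE z Y g K j H) (pw a) n := by
    intro j H hH
    obtain ⟨e1, -, e3⟩ := h10 (Fin m) j H z Y Y C ρ _ _ hY1.le hY1.le hρb hρs hC0.le
      (hHS j H hH).2 (hWG j H hH) (hWG j H hH)
    refine ⟨?_, e3 (pw a)⟩
    have : ({j} : Finset (Fin m)) ∪ H = insert j H := rfl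
    rw [this]
    exact e1
  have hQ : ∀ (j : Fin m), ∀ H ∈ HS ((Ad y₀ a m).erase j) K,
      0 ≤ QB z (Y * Y) (rj j ρ (LE z Y g K j H)) (rj j ρ (LE z Y g K j H)) ∧
      QB z (Y * Y) (rj j ρ (LE z Y g K j H)) (rj j ρ (LE z Y g K j H)) ≤
        q1 * te z Y g K H.card ∧
      QB z (Y * Y) (rj j ρ (LE z Y g K j H)) (rj j ρ (LE z Y g K j H)) ≤ q1 := by
    intro j H hH
    obtain ⟨e1, e2⟩ := hHS j H hH
    obtain ⟨-, f2, f3, f4⟩ := h2 m K z Y g j H H hY1 hg e2 e2 e1 e1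
    rw [hRJ j H hH H hH]
    refine ⟨mul_nonneg hq0 f2, mul_le_mul_of_nonneg_left f3 hq0, ?_⟩
    calc q1 * QB z Y (LE z Y g K j H) (LE z Y g K j H) ≤ q1 * 1 :=
          mul_le_mul_of_nonneg_left f4 hq0
      _ = q1 := mul_one _
  have hL := lhs h9 (m := m) (y₀ := y₀) (K := K) (a := a) (Z := Z) (z := z) (Y := Y) (D := Y)
    (g := g) (ρ := ρ) hK hY1.le hY1.le hg' hρ1 hys hzs hYs hYs
    (fun j H hH n => (hRJ1 j H hH).2 n)
  refine hL.trans ?_
  -- one position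
  have hJ : ∀ j ∈ Ad y₀ a m, ∑ n ∈ OS Z y₀ z (({j} : Finset (Fin m)).image (pw a)),
      Sj y₀ K z Y Y g ρ a j n ^ 2 ≤ VS y₀ z {pw a j} * (NX Z / primorial y₀ *
      (q1 * ((1 + ηF) * TE z Y g K Lm + 2 * ηF * (CK * (1 + m * Me z) ^ (2 * K))))) +
      Z / Real.log Z ^ 2 := by
    intro j hj
    have hdis : Disjoint ({pw a j} : Finset ℕ) (ps a ((Ad y₀ a m).erase j)) := by
      rw [disjoint_singleton_left]
      intro h
      rw [ps, mem_image] at h
      obtain ⟨i, hi, hi'⟩ := h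
      rw [pw_inj a hi'] at hi
      exact (mem_erase.1 hi).1 rfl
    have hEj := hE Z hZE (Fin m) (pw a) {j} (HS ((Ad y₀ a m).erase j) K) (Y * Y)
      (fun H => rj j ρ (LE z Y g K j H)) (by rw [card_singleton]; exact hK)
      (fun H hH => (hHS j H hH).1) (pw_inj a) ?_ ?_ ?_ hYY.le ?_ ?_
    rotate_left
    · intro i
      refine (haux i).trans ?_
      have : H₀ ≤ |H₀| + lam + 1 := by
        have := le_abs_self H₀
        linarith
      exact mul_le_mul_of_nonneg_right this hlZ0.le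
    · refine (card_HS _ _).trans ?_
      refine pow_le_pow_left₀ (by positivity) ?_ K
      have e1 := abs_nonneg H₀
      have e2 : 0 ≤ |H₀| * Real.log Z := by positivity
      have e3 : (|H₀| + lam + 1) * Real.log Z = |H₀| * Real.log Z + lam * Real.log Z +
          Real.log Z := by ring
      linarith
    · exact one_le_mul_of_one_le_of_one_le hY1.le hY1.le
    · intro H hH
      rw [← hz]
      exact (hRJ1 j H hH).1
    · intro H hH H' hH' hne
      rw [← hz]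
      change QB z (Y * Y) (rj j ρ (LE z Y g K j H)) (rj j ρ (LE z Y g K j H')) = 0
      rw [hRJ j H hH H' hH', (h2 m K z Y g j H H' hY1 hg (hHS j H hH).2 (hHS j H' hH').2
        (hHS j H hH).1 (hHS j H' hH').1).1 hne, mul_zero]
    rw [← hz] at hEj
    refine part_j (y₀ := y₀) (K := K) (a := a) (Z := Z) (z := z) (Y := Y) (g := g) j
      (fun H => QB z (Y * Y) (rj j ρ (LE z Y g K j H)) (rj j ρ (LE z Y g K j H))) hηF0.le hq0
      hEj (hQ j) hte ?_ ?_ hpos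
    · intro s hs
      have := hU2 Z hZU {pw a j} m a s ((Ad y₀ a m).erase j) (by rw [card_singleton]; exact hK)
        hs (fun x hx => by rw [mem_singleton] at hx; rw [hx]; exact haux j) ha hm1
        (erase_subset _ _) hdis
      rw [← hz, ← hLm] at this
      exact this
    · have := hC2 Z hZC {pw a j} m a ((Ad y₀ a m).erase j) (by rw [card_singleton]; omega)
        (fun x hx => by rw [mem_singleton] at hx; rw [hx]; exact haux j) ha hm1
        (erase_subset _ _) hdis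
      rw [← hz] at this
      exact this
  refine (Finset.sum_le_sum hJ).trans ?_
  rw [Finset.sum_add_distrib, ← Finset.sum_mul, sum_const, nsmul_eq_mul]
  have hone : ∑ j ∈ Ad y₀ a m, VS y₀ z {pw a j} ≤ Lm := by
    refine sum_one ?_
    have := hU2 Z hZU ∅ m a 1 (Ad y₀ a m) (by simp) hK (fun x hx => by simp at hx) ha hm1
      (subset_refl _) (disjoint_empty_left _)
    rw [← hz, ← hLm] at this
    exact this
  have hN : (0 : ℝ) ≤ NX Z / primorial y₀ := by positivity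
  have hcA : ((Ad y₀ a m).card : ℝ) ≤ m := by
    have := card_le_univ (Ad y₀ a m)
    rw [Fintype.card_fin] at this
    exact_mod_cast this
  have hCW : CK * (1 + m * Me z) ^ (2 * K) ≤ CK * W := by
    rw [hW]
    gcongr
  have hηC : ηF * (CK * (1 + m * Me z) ^ (2 * K)) ≤ η / (64 * lam) :=
    (mul_le_mul_of_nonneg_left hCW hηF0.le).trans hηF3
  have hηC0 : 0 ≤ ηF * (CK * (1 + m * Me z) ^ (2 * K)) := by positivity
  -- the first part
  have hA1 : (∑ j ∈ Ad y₀ a m, VS y₀ z {pw a j}) * (NX Z / primorial y₀ *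
      (q1 * ((1 + ηF) * TE z Y g K Lm + 2 * ηF * (CK * (1 + m * Me z) ^ (2 * K))))) ≤
      NX Z / primorial y₀ * (32 * lam * TE z Y g K Lm + η / 2) := by
    have e0 : 0 ≤ NX Z / primorial y₀ *
        (q1 * ((1 + ηF) * TE z Y g K Lm + 2 * ηF * (CK * (1 + m * Me z) ^ (2 * K)))) := by
      have : 0 ≤ (1 + ηF) * TE z Y g K Lm := by positivity
      have : 0 ≤ 2 * ηF * (CK * (1 + m * Me z) ^ (2 * K)) := by positivity
      positivity
    refine (mul_le_mul_of_nonneg_right hone e0).trans ?_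
    have e1 : Lm * (NX Z / primorial y₀ *
        (q1 * ((1 + ηF) * TE z Y g K Lm + 2 * ηF * (CK * (1 + m * Me z) ^ (2 * K))))) =
        NX Z / primorial y₀ * ((m * Me z * q1) * ((1 + η) * ((1 + ηF) * TE z Y g K Lm +
          2 * (ηF * (CK * (1 + m * Me z) ^ (2 * K)))))) := by
      nth_rewrite 1 [hLm]
      ring
    rw [e1]
    refine mul_le_mul_of_nonneg_left ?_ hN
    have e2 : (1 + η) * ((1 + ηF) * TE z Y g K Lm +
        2 * (ηF * (CK * (1 + m * Me z) ^ (2 * K)))) ≤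
        2 * (2 * TE z Y g K Lm + 2 * (η / (64 * lam))) := by
      have e3 : 1 + ηF ≤ 2 := by linarith
      have e4 : 1 + η ≤ 2 := by linarith
      gcongr
    have e5 : 0 ≤ 2 * (2 * TE z Y g K Lm + 2 * (η / (64 * lam))) := by positivity
    calc (m * Me z * q1) * ((1 + η) * ((1 + ηF) * TE z Y g K Lm +
          2 * (ηF * (CK * (1 + m * Me z) ^ (2 * K))))) ≤
          (8 * lam) * (2 * (2 * TE z Y g K Lm + 2 * (η / (64 * lam)))) := by
            refine mul_le_mul hmMq e2 ?_ (by positivity)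
            have : 0 ≤ (1 + ηF) * TE z Y g K Lm := by positivity
            positivity
      _ = 32 * lam * TE z Y g K Lm + η / 2 := by
          field_simp
          ring
  -- the error
  have hA2 : ((Ad y₀ a m).card : ℝ) * (Z / Real.log Z ^ 2) ≤ NX Z / primorial y₀ * (η / 2) := by
    have e1 : (3 * Z : ℝ) ≤ NX Z := by
      unfold NX
      exact Nat.le_ceil _
    have e2 : ((Ad y₀ a m).card : ℝ) * (Z / Real.log Z ^ 2) ≤ lam * Z / Real.log Z := by
      calc ((Ad y₀ a m).card : ℝ) * (Z / Real.log Z ^ 2) ≤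
            (lam * Real.log Z) * (Z / Real.log Z ^ 2) := by
              gcongr
              exact hcA.trans hm2
        _ = lam * Z / Real.log Z := by field_simp
    refine e2.trans ?_
    calc lam * Z / Real.log Z ≤ 3 * Z / primorial y₀ * (η / 2) := by
          rw [div_le_iff₀ (by positivity)] at hlP
          rw [div_mul_div_comm, div_le_div_iff₀ hlZ0 (by positivity)]
          have e4 : 2 * lam * primorial y₀ * Z ≤ Real.log Z * (3 * η) * Z :=
            mul_le_mul_of_nonneg_right hlP hZ0.le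
          linarith
      _ ≤ NX Z / primorial y₀ * (η / 2) := by gcongr
  have hfin : NX Z / primorial y₀ * (32 * lam * TE z Y g K Lm + η) =
      NX Z / primorial y₀ * (32 * lam * TE z Y g K Lm + η / 2) +
      NX Z / primorial y₀ * (η / 2) := by ring
  rw [← hLm, hfin]
  exact add_le_add hA1 hA2

end Pool.Agent.H4.RP
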